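import Pool.Agent.K9h98.TI.NoCpt
import Pool.Agent.W658.Cone

/-!
# The unitised cone over the Cuntz algebra is stably finite and not locally of type I
-/

set_option autoImplicit false

open scoped ComplexOrder InnerProductSpace
open Pool.Agent.W658.Cone Pool.Agent.W658.TypeI

noncomputable section

namespace Pool.Agent.K9h98.TI

/-! ### stable finiteness -/

instance : Nontrivial BH := ⟨1, 0, fun h => by
  have h1 := congrArg (fun T : BH => star (s true) * T * s true) h
  have h2 : (1 : BH) xi = (0 : BH) xi := by rw [h]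
  have h3 : ‖xi‖ = 1 := by
    have := orthonormal_vec 0
    have h4 := inner_S_self []
    rw [show (S [] : BH) = 1 by simp] at h4
    rw [one_apply_eq_self] at h4
    rw [inner_self_eq_norm_sq_to_K] at h4
    have h5 : ((‖xi‖ ^ 2 : ℝ) : ℂ) = ((1 : ℝ) : ℂ) := by
      push_cast
      exact h4
    have h6 : ‖xi‖ ^ 2 = 1 := Complex.ofReal_injective h5
    nlinarith [norm_nonneg xi]
  have h7 : xi = 0 := by simpa using h2
  rw [h7, norm_zero] at h3
  exact zero_ne_one h3⟩

/-- a matrix of operators whose entries are less than `1 / n` and which is idempotent vanishes -/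
lemma idem_small {n : ℕ} (p : Matrix (Fin n) (Fin n) BH) (hp : p * p = p)
    (h : ∀ i j, ‖p i j‖ * n < 1) : p = 0 := by
  rcases Nat.eq_zero_or_pos n with h0 | h0
  · subst h0
    ext i
    exact i.elim0
  have : NeZero n := ⟨h0.ne'⟩
  obtain ⟨⟨i, j⟩, hij⟩ := Finite.exists_max (fun x : Fin n × Fin n => ‖p x.1 x.2‖)
  have h1 : ‖p i j‖ ≤ n * (‖p i j‖ * ‖p i j‖) := by
    calc ‖p i j‖ = ‖∑ k, p i k * p k j‖ := by
          conv_lhs => rw [← hp]
          rw [Matrix.mul_apply]
      _ ≤ ∑ k, ‖p i k * p k j‖ := norm_sum_le _ _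
      _ ≤ ∑ _k : Fin n, ‖p i j‖ * ‖p i j‖ := by
          refine Finset.sum_le_sum fun k _ => (norm_mul_le _ _).trans ?_
          have h1 := hij (i, k)
          have h2 := hij (k, j)
          dsimp only at h1 h2
          gcongr
      _ = n * (‖p i j‖ * ‖p i j‖) := by simp
  have h2 : ‖p i j‖ = 0 := by
    by_contra hne
    have hpos : 0 < ‖p i j‖ := lt_of_le_of_ne (norm_nonneg _) (Ne.symm hne)
    have h3 := h i j
    nlinarith
  ext a b
  have h3 := hij (a, b)
  dsimp only at h3
  rw [h2] at h3
  have : p a b = 0 := norm_eq_zero.1 (le_antisymm h3 (norm_nonneg _))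
  rw [this]
  rfl

lemma smul_one_inj {c d : ℂ} (h : c • (1 : BH) = d • (1 : BH)) : c = d := by
  by_contra hne
  have h1 : (c - d) • (1 : BH) = 0 := by rw [sub_smul, h, sub_self]
  rcases smul_eq_zero.1 h1 with h2 | h2
  · exact hne (sub_eq_zero.1 h2)
  · exact one_ne_zero h2

/-- the values of a matrix over the cone -/
def evM {n : ℕ} (v : Matrix (Fin n) (Fin n) CA) (t : unitInterval) : Matrix (Fin n) (Fin n) BH :=
  v.map (ev t)

lemma evM_mul {n : ℕ} (v w : Matrix (Fin n) (Fin n) CA) (t : unitInterval) :
    evM (v * w) t = evM v t * evM w t := by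
  ext i j
  rw [evM, Matrix.map_apply, Matrix.mul_apply, Matrix.mul_apply, map_sum]
  simp only [map_mul, evM, Matrix.map_apply]

lemma evM_star {n : ℕ} (v : Matrix (Fin n) (Fin n) CA) (t : unitInterval) :
    evM (star v) t = star (evM v t) := by
  ext i j
  rw [evM, Matrix.map_apply, Matrix.star_apply, Matrix.star_apply, map_star, evM, Matrix.map_apply]

lemma evM_one {n : ℕ} (t : unitInterval) :
    evM (1 : Matrix (Fin n) (Fin n) CA) t = 1 := by
  ext i j
  rw [evM, Matrix.map_apply, Matrix.one_apply, Matrix.one_apply]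
  split_ifs
  · rfl
  · rw [map_zero]

lemma stablyFinite_CA : IsStablyFinite CA := by
  intro n v hv
  -- the defect projection
  set q : unitInterval → Matrix (Fin n) (Fin n) BH := fun t => 1 - evM v t * star (evM v t) with hq
  have hiso : ∀ t, star (evM v t) * evM v t = 1 := by
    intro t
    rw [← evM_star, ← evM_mul, hv, evM_one]
  have hidem : ∀ t, q t * q t = q t := by
    intro t
    have h1 : evM v t * star (evM v t) * (evM v t * star (evM v t)) = evM v t * star (evM v t) := by
      calc evM v t * star (evM v t) * (evM v t * star (evM v t))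
          = evM v t * (star (evM v t) * evM v t) * star (evM v t) := by
            simp only [Matrix.mul_assoc]
        _ = _ := by rw [hiso, Matrix.mul_one]
    show (1 - evM v t * star (evM v t)) * (1 - evM v t * star (evM v t)) = 1 - evM v t * star (evM v t)
    rw [sub_mul, one_mul, mul_sub, mul_one, h1, sub_self, sub_zero]
  have hcont : ∀ i j, Continuous fun t => q t i j := by
    intro i j
    have h1 : ∀ t, q t i j = (1 : Matrix (Fin n) (Fin n) BH) i j -
        ∑ k, ((v i k : CB) t) * star ((v j k : CB) t) := by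
      intro t
      rfl
    simp only [h1]
    refine continuous_const.sub (continuous_finsetSum _ fun k _ => ?_)
    exact ((v i k : CB).continuous).mul ((v j k : CB).continuous.star)
  -- the value at zero
  have h0 : q 0 = 0 := by
    choose c hc using fun i j => (v i j).2.2
    have hc' : evM v 0 = Matrix.of fun i j => c i j • (1 : BH) := by
      ext1 i j
      exact hc i j
    let c0 : Matrix (Fin n) (Fin n) ℂ := Matrix.of c
    have e1 : star (evM v 0) * evM v 0 = (star c0 * c0).map (fun z => z • (1 : BH)) := by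
      ext1 i j
      rw [Matrix.mul_apply, Matrix.map_apply, Matrix.mul_apply, Finset.sum_smul]
      refine Finset.sum_congr rfl fun k _ => ?_
      rw [hc', Matrix.star_apply, Matrix.star_apply, Matrix.of_apply, Matrix.of_apply, star_smul,
        star_one, smul_mul_smul_comm, mul_one]
      rfl
    have e2 : evM v 0 * star (evM v 0) = (c0 * star c0).map (fun z => z • (1 : BH)) := by
      ext1 i j
      rw [Matrix.mul_apply, Matrix.map_apply, Matrix.mul_apply, Finset.sum_smul]
      refine Finset.sum_congr rfl fun k _ => ?_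
      rw [hc', Matrix.star_apply, Matrix.star_apply, Matrix.of_apply, Matrix.of_apply, star_smul,
        star_one, smul_mul_smul_comm, mul_one]
      rfl
    have e3 : star c0 * c0 = 1 := by
      ext i j
      apply smul_one_inj
      have h1 := congrFun (congrFun (e1.symm.trans (hiso 0)) i) j
      rw [Matrix.map_apply] at h1
      rw [h1, Matrix.one_apply, Matrix.one_apply]
      split_ifs <;> simp
    have e4 : c0 * star c0 = 1 := mul_eq_one_comm.1 e3
    show 1 - evM v 0 * star (evM v 0) = 0
    rw [e2, e4, sub_eq_zero]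
    ext1 i j
    rw [Matrix.map_apply, Matrix.one_apply, Matrix.one_apply]
    split_ifs <;> simp
  -- the set of the zeros is open and closed
  have hclopen : IsClopen {t | q t = 0} := by
    constructor
    · have : {t | q t = 0} = ⋂ i, ⋂ j, {t | q t i j = 0} := by
        ext t
        simp only [Set.mem_iInter, Set.mem_ofPred_eq]
        constructor
        · intro h i j
          rw [h]
          rfl
        · intro h
          ext1 i j
          exact h i j
      rw [this]
      exact isClosed_iInter fun i => isClosed_iInter fun j => isClosed_eq (hcont i j) continuous_const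
    · have : {t | q t = 0} = ⋂ i, ⋂ j, {t | ‖q t i j‖ * n < 1} := by
        ext t
        simp only [Set.mem_iInter, Set.mem_ofPred_eq]
        constructor
        · intro h i j
          rw [h]
          simp
        · intro h
          exact idem_small _ (hidem t) h
      rw [this]
      exact isOpen_iInter_of_finite fun i => isOpen_iInter_of_finite fun j =>
        isOpen_lt ((hcont i j).norm.mul continuous_const) continuous_const
  have huniv : {t | q t = 0} = Set.univ := hclopen.eq_univ ⟨0, h0⟩
  have hall : ∀ t, q t = 0 := fun t => by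
    have : t ∈ {t | q t = 0} := by rw [huniv]; trivial
    exact this
  ext1 i j
  apply CA_ext
  intro t
  have h1 := congrFun (congrFun (hall t) i) j
  have h2 : evM (v * star v) t = evM 1 t := by
    rw [evM_mul, evM_star, evM_one]
    exact (sub_eq_zero.1 (hall t)).symm
  exact congrFun (congrFun h2 i) j

/-! ### the cone is not locally of type I -/

/-- the function `t ↦ t` -/
def idf : C(unitInterval, ℝ) := ⟨fun t => (t : ℝ), continuous_subtype_val⟩

/-- the elements `t ↦ t s_b` of the cone -/
def gen (b : Bool) : CA := ⟨el idf (s b), el_mem (by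
  have := S_mem_O2 [b]
  simpa using this) rfl⟩

lemma ev_gen (b : Bool) : ev 1 (gen b) = s b := by
  show (((1 : unitInterval) : ℝ) : ℂ) • s b = s b
  simp

lemma norm_s_le (b : Bool) : ‖s b‖ ≤ 1 := by
  have h1 : ‖star (s b) * s b‖ = ‖s b‖ * ‖s b‖ := CStarRing.norm_star_mul_self
  rw [star_s_mul_s_self, norm_one] at h1
  nlinarith [norm_nonneg (s b)]

/-- elements of closed *-subalgebras near `1` -/
lemma one_mem_of_near {D : NonUnitalStarSubalgebra ℂ BH} (hD : IsClosed (D : Set BH)) (h : BH)
    (hh : h ∈ D) (h1 : ‖1 - h‖ < 1) : (1 : BH) ∈ D := by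
  have hmem : ∀ n : ℕ, 1 - (1 - h) ^ (n + 1) ∈ D := by
    intro n
    induction n with
    | zero => simpa using hh
    | succ n ih =>
      have e : 1 - (1 - h) ^ (n + 1 + 1) = (1 - (1 - h) ^ (n + 1)) + h - (1 - (1 - h) ^ (n + 1)) * h := by
        rw [pow_succ]
        noncomm_ring
      rw [e]
      exact sub_mem (add_mem ih hh) (mul_mem ih hh)
  have hlim : Filter.Tendsto (fun n : ℕ => 1 - (1 - h) ^ (n + 1)) Filter.atTop (nhds (1 - 0)) := by
    refine tendsto_const_nhds.sub ?_
    exact (tendsto_pow_atTop_nhds_zero_of_norm_lt_one h1).comp (Filter.tendsto_add_atTop_nat 1)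
  rw [sub_zero] at hlim
  exact hD.mem_of_tendsto hlim (Filter.Eventually.of_forall hmem)

/-- A *-algebra with a homomorphism with dense range to a C*-algebra with two approximate isometries
with almost orthogonal ranges is not of type I. -/
lemma not_typeI_of_map {B : Type} [NonUnitalRing B] [StarRing B] [Module ℂ B] {D : Type}
    [CStarAlgebra D] [Nontrivial D] (r : B →⋆ₙₐ[ℂ] D)
    (hdense : ∀ c : D, ∀ δ : ℝ, 0 < δ → ∃ f : B, ‖c - r f‖ < δ) (x y : D)
    (hx : ‖star x * x - 1‖ ≤ 1 / 4) (hy : ‖star y * y - 1‖ ≤ 1 / 4) (hxy : ‖star x * y‖ ≤ 1 / 4) :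
    ¬ IsTypeI B := by
  intro hT
  obtain ⟨K, _, _, _, ρ, hρ1, ⟨ξ, hξ⟩, hirr, T, hTc, hTn⟩ := exists_irr_not_compact x y hx hy hxy
  have hρn : ∀ c : D, ‖ρ c‖ ≤ ‖c‖ := fun c => NonUnitalStarAlgHom.norm_apply_le ρ c
  have hirrB : IsIrreducible (ρ.comp r) := by
    constructor
    · intro h0
      obtain ⟨f, hf⟩ := hdense 1 1 one_pos
      have h1 : ρ (r f) = 0 := by
        have := congrArg (fun φ : B →⋆ₙₐ[ℂ] (K →L[ℂ] K) => φ f) h0
        exact this
      have h2 := (hρn (1 - r f)).trans_lt hf
      rw [map_sub, hρ1, h1, sub_zero] at h2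
      have h3 := (1 : K →L[ℂ] K).le_opNorm ξ
      rw [one_apply_eq_self, hξ, mul_one] at h3
      linarith
    · intro U hU hinv
      refine hirr U hU ?_
      intro c x hx
      have h1 : ρ c x ∈ closure (U : Set K) := by
        rw [Metric.mem_closure_iff]
        intro δ hδ
        obtain ⟨f, hf⟩ := hdense c (δ / (‖x‖ + 1)) (by positivity)
        refine ⟨ρ (r f) x, hinv f x hx, ?_⟩
        rw [dist_eq_norm]
        have h2 : ρ c x - ρ (r f) x = ρ (c - r f) x := by
          rw [map_sub, sub_apply]
        rw [h2]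
        calc ‖ρ (c - r f) x‖ ≤ ‖ρ (c - r f)‖ * ‖x‖ := (ρ (c - r f)).le_opNorm x
          _ ≤ ‖c - r f‖ * (‖x‖ + 1) := by
            gcongr
            · exact hρn _
            · linarith
          _ < δ / (‖x‖ + 1) * (‖x‖ + 1) := by
            gcongr
          _ = δ := by field_simp
      rwa [hU.closure_eq] at h1
  obtain ⟨f, hf⟩ := hT K (ρ.comp r) hirrB T hTc
  exact hTn (r f) hf

lemma not_typeI_of_near (B : NonUnitalStarSubalgebra ℂ CA)
    (hB : ∀ b : Bool, ∃ y ∈ B, ‖gen b - y‖ < 1 / 100) : ¬ IsTypeI B := by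
  intro hT
  choose y hyB hy using hB
  -- the values at one
  have hev : ∀ f : CA, ‖ev 1 f‖ ≤ ‖f‖ := fun f => ContinuousMap.norm_coe_le_norm (f : CB) 1
  set d : Bool → BH := fun b => ev 1 (y b) with hd
  have hds : ∀ b, ‖s b - d b‖ < 1 / 100 := by
    intro b
    have := (hev (gen b - y b)).trans_lt (hy b)
    rwa [map_sub, ev_gen] at this
  have hdn : ∀ b, ‖d b‖ ≤ 101 / 100 := by
    intro b
    calc ‖d b‖ = ‖s b - (s b - d b)‖ := by rw [sub_sub_cancel]
      _ ≤ ‖s b‖ + ‖s b - d b‖ := norm_sub_le _ _
      _ ≤ 1 + 1 / 100 := add_le_add (norm_s_le b) (hds b).le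
      _ = _ := by norm_num
  have hrel : ∀ b c, ‖star (d b) * d c - star (s b) * s c‖ ≤ 1 / 4 := by
    intro b c
    have e : star (d b) * d c - star (s b) * s c =
        -(star (s b - d b) * d c) - star (s b) * (s c - d c) := by
      rw [star_sub]
      noncomm_ring
    rw [e]
    refine (norm_sub_le _ _).trans ?_
    rw [norm_neg]
    have h1 : ‖star (s b - d b) * d c‖ ≤ 1 / 100 * (101 / 100) := by
      refine (norm_mul_le _ _).trans ?_
      rw [norm_star]
      exact mul_le_mul (hds b).le (hdn c) (norm_nonneg _) (by norm_num)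
    have h2 : ‖star (s b) * (s c - d c)‖ ≤ 1 * (1 / 100) := by
      refine (norm_mul_le _ _).trans ?_
      rw [norm_star]
      exact mul_le_mul (norm_s_le b) (hds c).le (norm_nonneg _) (by norm_num)
    linarith
  -- the closure of the image
  let D0 : NonUnitalStarSubalgebra ℂ BH := (NonUnitalStarSubalgebra.map (ev 1) B).topologicalClosure
  have hD0cl : IsClosed (D0 : Set BH) := NonUnitalStarSubalgebra.isClosed_topologicalClosure _
  have himg : ∀ f ∈ B, ev 1 f ∈ D0 := fun f hf =>
    NonUnitalStarSubalgebra.le_topologicalClosure _ (NonUnitalStarSubalgebra.mem_map.2 ⟨f, hf, rfl⟩)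
  have hone : (1 : BH) ∈ D0 := by
    refine one_mem_of_near hD0cl (star (d true) * d true)
      (mul_mem (star_mem (himg _ (hyB true))) (himg _ (hyB true))) ?_
    have := hrel true true
    rw [star_s_mul_s_self, norm_sub_rev] at this
    linarith
  let D : StarSubalgebra ℂ BH :=
    { carrier := D0
      mul_mem' := fun ha hb => mul_mem ha hb
      add_mem' := fun ha hb => add_mem ha hb
      algebraMap_mem' := fun c => by
        rw [Algebra.algebraMap_eq_smul_one]
        exact SMulMemClass.smul_mem _ hone
      star_mem' := fun ha => star_mem ha }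
  have hDmem : ∀ x, x ∈ D ↔ x ∈ D0 := fun x => Iff.rfl
  let _ : CStarAlgebra D := StarSubalgebra.cstarAlgebra D (h_closed := hD0cl)
  have hnt : Nontrivial D := ⟨1, 0, fun h => one_ne_zero (α := BH) (congrArg Subtype.val h)⟩
  let x1 : D := ⟨d true, himg _ (hyB true)⟩
  let x2 : D := ⟨d false, himg _ (hyB false)⟩
  -- the representation of `B`
  let r : B →⋆ₙₐ[ℂ] D :=
    { toFun := fun f => ⟨ev 1 (f : CA), himg _ f.2⟩
      map_smul' := fun _ _ => rfl
      map_zero' := rfl
      map_add' := fun _ _ => rfl
      map_mul' := fun _ _ => rfl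
      map_star' := fun _ => rfl }
  have hdense : ∀ c : D, ∀ δ : ℝ, 0 < δ → ∃ f : B, ‖c - r f‖ < δ := by
    intro c δ hδ
    have h1 : (c : BH) ∈ closure ((NonUnitalStarSubalgebra.map (ev 1) B : NonUnitalStarSubalgebra ℂ BH) : Set BH) := c.2
    rw [Metric.mem_closure_iff] at h1
    obtain ⟨z, hz, hz2⟩ := h1 δ hδ
    obtain ⟨f, hf, rfl⟩ := NonUnitalStarSubalgebra.mem_map.1 hz
    refine ⟨⟨f, hf⟩, ?_⟩
    rw [dist_eq_norm] at hz2
    exact hz2
  refine not_typeI_of_map r hdense x1 x2 ?_ ?_ ?_ hT
  · have := hrel true true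
    rw [star_s_mul_s_self] at this
    exact this
  · have := hrel false false
    rw [star_s_mul_s_self] at this
    exact this
  · have := hrel true false
    rw [star_s_mul_s_ne (by decide), sub_zero] at this
    exact this

end Pool.Agent.K9h98.TI
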