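import Pool.Agent.W658.States
import Pool.Agent.TH496.EI_Irr

/-!
# Irreducible representations of unital C*-algebras which vanish on an ideal
-/

set_option autoImplicit false

open scoped ComplexOrder InnerProductSpace
open UniformSpace Completion

noncomputable section

namespace Pool.Agent.K9h98.TI

open Pool.Agent.W658.Irrep Pool.Agent.TH496.EIirr

universe u

variable {C : Type u} [CStarAlgebra C]

/-- proper two-sided ideals which are closed under the involution -/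
structure IsId (J : Set C) : Prop where
  zero : (0 : C) ∈ J
  add : ∀ a ∈ J, ∀ b ∈ J, a + b ∈ J
  left : ∀ (c : C), ∀ a ∈ J, c * a ∈ J
  right : ∀ (c : C), ∀ a ∈ J, a * c ∈ J
  star : ∀ a ∈ J, star a ∈ J
  one : (1 : C) ∉ J

lemma IsId.zero_set [Nontrivial C] : IsId ({0} : Set C) where
  zero := rfl
  add := by
    rintro a ha b hb
    rw [Set.mem_singleton_iff] at *
    rw [ha, hb, add_zero]
  left := by
    rintro c a ha
    rw [Set.mem_singleton_iff] at *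
    rw [ha, mul_zero]
  right := by
    rintro c a ha
    rw [Set.mem_singleton_iff] at *
    rw [ha, zero_mul]
  star := by
    rintro a ha
    rw [Set.mem_singleton_iff] at *
    rw [ha, star_zero]
  one := one_ne_zero

lemma IsId.one_le {J : Set C} (h : IsId J) {j : C} (hj : j ∈ J) : 1 ≤ ‖1 - j‖ := by
  by_contra hlt
  push Not at hlt
  have h1 : IsUnit (1 - (1 - j)) := isUnit_one_sub_of_norm_lt_one hlt
  rw [sub_sub_cancel] at h1
  obtain ⟨u, hu⟩ := h1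
  apply h.one
  have := h.left (↑u⁻¹ : C) j hj
  rw [← hu, Units.inv_mul] at this
  exact this

lemma IsId.clos {J : Set C} (h : IsId J) : IsId (closure J) where
  zero := subset_closure h.zero
  add := fun a ha b hb => map_mem_closure₂ continuous_add ha hb fun a ha b hb => h.add a ha b hb
  left := fun c a ha => map_mem_closure (f := fun x => c * x) (by fun_prop) ha
    fun a ha => h.left c a ha
  right := fun c a ha => map_mem_closure (f := fun x => x * c) (by fun_prop) ha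
    fun a ha => h.right c a ha
  star := fun a ha => map_mem_closure continuous_star ha fun a ha => h.star a ha
  one := by
    intro h1
    rw [Metric.mem_closure_iff] at h1
    obtain ⟨j, hj, hd⟩ := h1 1 one_pos
    have := h.one_le hj
    rw [dist_eq_norm] at hd
    linarith

/-- there are maximal ideals, and they are closed -/
lemma exists_max [Nontrivial C] : ∃ J : Set C, IsId J ∧ IsClosed J ∧
    ∀ J' : Set C, IsId J' → J ⊆ J' → J' = J := by
  obtain ⟨m, -, hm⟩ := zorn_subset_nonempty {S : Set C | IsId S} (by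
    intro c hc hchain hne
    obtain ⟨s0, hs0⟩ := hne
    refine ⟨⋃₀ c, ?_, fun s hs => Set.subset_sUnion_of_mem hs⟩
    refine ⟨⟨s0, hs0, (hc hs0).zero⟩, ?_, ?_, ?_, ?_, ?_⟩
    · rintro a ⟨s, hs, ha⟩ b ⟨t, ht, hb⟩
      rcases hchain.total hs ht with h | h
      · exact ⟨t, ht, (hc ht).add a (h ha) b hb⟩
      · exact ⟨s, hs, (hc hs).add a ha b (h hb)⟩
    · rintro x a ⟨s, hs, ha⟩
      exact ⟨s, hs, (hc hs).left x a ha⟩
    · rintro x a ⟨s, hs, ha⟩
      exact ⟨s, hs, (hc hs).right x a ha⟩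
    · rintro a ⟨s, hs, ha⟩
      exact ⟨s, hs, (hc hs).star a ha⟩
    · rintro ⟨s, hs, ha⟩
      exact (hc hs).one ha) {0} IsId.zero_set
  have hid : IsId m := hm.prop
  have hmax : ∀ J' : Set C, IsId J' → m ⊆ J' → J' = m := fun J' h1 h2 =>
    (hm.eq_of_subset h1 h2).symm
  refine ⟨m, hid, ?_, hmax⟩
  have := hmax (closure m) hid.clos subset_closure
  exact closure_eq_iff_isClosed.1 this

/-- the ideal as a subspace -/
def IsId.sub {J : Set C} (h : IsId J) : Submodule ℂ C where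
  carrier := J
  zero_mem' := h.zero
  add_mem' := fun {a b} ha hb => h.add a ha b hb
  smul_mem' := fun c a ha => by
    have := h.left (c • (1 : C)) a ha
    rwa [smul_mul_assoc, one_mul] at this

lemma IsId.mem_sub {J : Set C} (h : IsId J) (x : C) : x ∈ h.sub ↔ x ∈ J := Iff.rfl

/-- the states which vanish on `J` -/
def StJ (J : Set C) : Set (C → ℂ) :=
  {f | (∀ a b, f (a + b) = f a + f b) ∧ (∀ (c : ℂ) a, f (c • a) = c * f a) ∧
    (∀ a, 0 ≤ f (star a * a)) ∧ f 1 = 1 ∧ (∀ a, ‖f a‖ ≤ ‖a‖) ∧ ∀ j ∈ J, f j = 0}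

lemma StJ_nonempty [Nontrivial C] {J : Set C} (h : IsId J) (hcl : IsClosed J) :
    (StJ J).Nonempty := by
  have hcl' : IsClosed (h.sub : Set C) := hcl
  let _ : NormedAddCommGroup (C ⧸ h.sub) := Submodule.Quotient.normedAddCommGroup h.sub (hS := hcl')
  have h1 : (1 : ℝ) ≤ ‖(Submodule.Quotient.mk (1 : C) : C ⧸ h.sub)‖ := by
    by_contra hlt
    push Not at hlt
    obtain ⟨m, hm1, hm2⟩ := Submodule.Quotient.norm_mk_lt
      (Submodule.Quotient.mk (1 : C) : C ⧸ h.sub) (sub_pos.2 hlt)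
    rw [add_sub_cancel] at hm2
    have h2 : (1 : C) - m ∈ h.sub := by
      rw [← Submodule.Quotient.eq]
      exact hm1.symm
    have h3 := h.one_le ((h.mem_sub _).1 h2)
    rw [sub_sub_cancel] at h3
    linarith
  have h2 : ‖(Submodule.Quotient.mk (1 : C) : C ⧸ h.sub)‖ ≤ 1 := by
    have := Submodule.Quotient.norm_mk_le h.sub (1 : C)
    rwa [CStarRing.norm_one] at this
  have h3 : ‖(Submodule.Quotient.mk (1 : C) : C ⧸ h.sub)‖ ≠ 0 := by
    intro h0
    rw [h0] at h1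
    linarith
  obtain ⟨g, hg1, hg2⟩ := exists_dual_vector ℂ (Submodule.Quotient.mk (1 : C) : C ⧸ h.sub) h3
  have hn : ∀ a : C, ‖g (Submodule.Quotient.mk a)‖ ≤ ‖a‖ := by
    intro a
    have := g.le_opNorm (Submodule.Quotient.mk a)
    rw [hg1, one_mul] at this
    exact this.trans (Submodule.Quotient.norm_mk_le h.sub a)
  let l : C →L[ℂ] ℂ := LinearMap.mkContinuous
    ((g : (C ⧸ h.sub) →ₗ[ℂ] ℂ) ∘ₗ h.sub.mkQ) 1 (fun a => by
      rw [one_mul]
      exact hn a)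
  have hl : ∀ a, l a = g (Submodule.Quotient.mk a) := fun a => rfl
  have hl1 : l 1 = 1 := by
    rw [hl, hg2, le_antisymm h2 h1]
    simp
  have hln : ‖l‖ = 1 := by
    apply le_antisymm
    · exact LinearMap.mkContinuous_norm_le _ zero_le_one _
    · have := l.le_opNorm 1
      rw [hl1, norm_one, CStarRing.norm_one, mul_one] at this
      exact this
  refine ⟨l, fun a b => map_add l a b, fun c a => by rw [map_smul, smul_eq_mul],
    fun a => pos_of_norm l hln hl1 a, hl1, fun a => by rw [hl]; exact hn a, ?_⟩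
  intro j hj
  rw [hl, (Submodule.Quotient.mk_eq_zero h.sub).2 hj, map_zero]

lemma StJ_compact (J : Set C) : IsCompact (StJ J) := by
  have h1 : IsCompact (Set.pi Set.univ (fun a : C => Metric.closedBall (0 : ℂ) ‖a‖)) :=
    isCompact_univ_pi fun a => isCompact_closedBall _ _
  refine h1.of_isClosed_subset ?_ ?_
  · have h : StJ J = {f : C → ℂ | ∀ a b, f (a + b) = f a + f b} ∩
        {f : C → ℂ | ∀ (c : ℂ) a, f (c • a) = c * f a} ∩
        {f : C → ℂ | ∀ a, 0 ≤ f (star a * a)} ∩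
        {f : C → ℂ | f 1 = 1} ∩ {f : C → ℂ | ∀ a, ‖f a‖ ≤ ‖a‖} ∩
        {f : C → ℂ | ∀ j ∈ J, f j = 0} := by
      ext f
      constructor
      · rintro ⟨h1, h2, h3, h4, h5, h6⟩
        exact ⟨⟨⟨⟨⟨h1, h2⟩, h3⟩, h4⟩, h5⟩, h6⟩
      · rintro ⟨⟨⟨⟨⟨h1, h2⟩, h3⟩, h4⟩, h5⟩, h6⟩
        exact ⟨h1, h2, h3, h4, h5, h6⟩
    rw [h]
    have hev : ∀ a : C, Continuous (fun f : C → ℂ => f a) := fun a => continuous_apply a
    refine IsClosed.inter (IsClosed.inter (IsClosed.inter (IsClosed.inter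
      (IsClosed.inter ?_ ?_) ?_) ?_) ?_) ?_
    · simp only [Set.ofPred_forall]
      exact isClosed_iInter fun a => isClosed_iInter fun b =>
        isClosed_eq (hev _) ((hev a).add (hev b))
    · simp only [Set.ofPred_forall]
      exact isClosed_iInter fun c => isClosed_iInter fun a =>
        isClosed_eq (hev _) (continuous_const.mul (hev a))
    · simp only [Set.ofPred_forall]
      exact isClosed_iInter fun a => isClosed_Ici.preimage (hev (star a * a))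
    · exact isClosed_eq (hev _) continuous_const
    · simp only [Set.ofPred_forall]
      exact isClosed_iInter fun a => isClosed_le (hev a).norm continuous_const
    · simp only [Set.ofPred_forall]
      exact isClosed_iInter fun j => isClosed_iInter fun _ =>
        isClosed_eq (hev j) continuous_const
  · intro f hf a _
    rw [mem_closedBall_zero_iff]
    exact hf.2.2.2.2.1 a

section abs

variable {K : Type u} [NormedAddCommGroup K] [InnerProductSpace ℂ K] [CompleteSpace K]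
  (ρ : C →⋆ₙₐ[ℂ] (K →L[ℂ] K)) (ξ : K)

theorem scalar_pos' {J : Set C} {φ : C → ℂ} (hφ : φ ∈ Set.extremePoints ℝ (StJ J)) (hρ1 : ρ 1 = 1)
    (hρJ : ∀ j ∈ J, ρ j = 0)
    (hξ : ‖ξ‖ = 1) (hdense : ∀ x y : K, (∀ a : C, ⟪x, ρ a ξ⟫_ℂ = ⟪y, ρ a ξ⟫_ℂ) → x = y)
    (hφξ : ∀ a, φ a = ⟪ξ, ρ a ξ⟫_ℂ) (T : K →L[ℂ] K) (hTa : ∀ a x, T (ρ a x) = ρ a (T x))
    (hT0 : ∀ x, 0 ≤ ⟪T x, x⟫_ℂ) (hT1 : ∀ x, 0 ≤ ⟪x - T x, x⟫_ℂ) :
    ∃ t : ℂ, T = t • (1 : K →L[ℂ] K) := by
  obtain ⟨⟨hadd, hsm, hpos, hone, hn, hY⟩, hext⟩ := mem_extremePoints.mp hφ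
  obtain ⟨R, hR⟩ : ∃ R : K →L[ℂ] K, R = 1 - T := ⟨_, rfl⟩
  have hRx : ∀ x, R x = x - T x := fun x => by rw [hR]; rfl
  have hR0 : ∀ x, 0 ≤ ⟪R x, x⟫_ℂ := fun x => by rw [hRx]; exact hT1 x
  have hRa : ∀ a x, R (ρ a x) = ρ a (R x) := by
    intro a x
    rw [hRx, hRx, map_sub, hTa]
  obtain ⟨s1, hs1⟩ : ∃ s1 : ℝ, s1 = (⟪T ξ, ξ⟫_ℂ).re := ⟨_, rfl⟩
  have hs1C : ⟪T ξ, ξ⟫_ℂ = (s1 : ℂ) := by
    have := (Complex.le_def.1 (hT0 ξ)).2
    apply Complex.ext
    · rw [Complex.ofReal_re, hs1]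
    · rw [Complex.ofReal_im]
      exact this.symm
  have hs2C : ⟪R ξ, ξ⟫_ℂ = ((1 - s1 : ℝ) : ℂ) := by
    rw [hRx, inner_sub_left, hs1C, inner_self_eq_norm_sq_to_K, hξ]
    push_cast
    ring
  have hs10 : 0 ≤ s1 := by
    have := hT0 ξ
    rw [hs1C] at this
    exact Complex.zero_le_real.1 this
  have hs20 : 0 ≤ 1 - s1 := by
    have := hR0 ξ
    rw [hs2C] at this
    exact Complex.zero_le_real.1 this
  -- it is enough to know `T ξ`
  have hfin : ∀ t : ℝ, T ξ = (t : ℂ) • ξ → ∃ t : ℂ, T = t • (1 : K →L[ℂ] K) := by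
    intro t ht
    refine ⟨t, ?_⟩
    ext z
    apply hdense
    intro a
    have e1 : ((t : ℂ) • (1 : K →L[ℂ] K)) z = (t : ℂ) • z := rfl
    rw [e1, symm_of_pos T hT0, hTa, ht, map_smul, inner_smul_right, inner_smul_left,
      Complex.conj_ofReal]
  by_cases h0 : s1 = 0
  · refine hfin 0 ?_
    rw [Complex.ofReal_zero, zero_smul]
    apply zero_of_pos T hT0
    rw [hs1C, h0, Complex.ofReal_zero]
  by_cases h1 : 1 - s1 = 0
  · refine hfin 1 ?_
    have h2 := zero_of_pos R hR0 ξ (by rw [hs2C, h1, Complex.ofReal_zero])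
    rw [hRx] at h2
    rw [Complex.ofReal_one, one_smul]
    exact (sub_eq_zero.1 h2).symm
  have hp1 : 0 < s1 := lt_of_le_of_ne hs10 (Ne.symm h0)
  have hp2 : 0 < 1 - s1 := lt_of_le_of_ne hs20 (Ne.symm h1)
  have hc1 : (s1 : ℂ) ≠ 0 := by exact_mod_cast hp1.ne'
  have hc2 : ((1 - s1 : ℝ) : ℂ) ≠ 0 := by exact_mod_cast hp2.ne'
  obtain ⟨x1, x2, x3, x4, x5⟩ := key2 ρ ξ hρ1 T hTa hT0 s1 hp1 hs1C
  obtain ⟨y1, y2, y3, y4, y5⟩ := key2 ρ ξ hρ1 R hRa hR0 (1 - s1) hp2 hs2C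
  have hcomb : ∀ a, (s1 : ℂ) * ((s1 : ℂ)⁻¹ * ⟪T ξ, ρ a ξ⟫_ℂ) +
      ((1 - s1 : ℝ) : ℂ) * (((1 - s1 : ℝ) : ℂ)⁻¹ * ⟪R ξ, ρ a ξ⟫_ℂ) = φ a := by
    intro a
    rw [mul_inv_cancel_left₀ hc1, mul_inv_cancel_left₀ hc2, hφξ, hRx, inner_sub_left]
    ring
  have w1 : ∀ j ∈ J, (s1 : ℂ)⁻¹ * ⟪T ξ, ρ j ξ⟫_ℂ = 0 := by
    intro j hj
    rw [hρJ j hj, zero_apply, inner_zero_right, mul_zero]
  have w2 : ∀ j ∈ J, ((1 - s1 : ℝ) : ℂ)⁻¹ * ⟪R ξ, ρ j ξ⟫_ℂ = 0 := by
    intro j hj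
    rw [hρJ j hj, zero_apply, inner_zero_right, mul_zero]
  have hseg : φ ∈ openSegment ℝ (fun a => (s1 : ℂ)⁻¹ * ⟪T ξ, ρ a ξ⟫_ℂ)
      (fun a => ((1 - s1 : ℝ) : ℂ)⁻¹ * ⟪R ξ, ρ a ξ⟫_ℂ) := by
    refine ⟨s1, 1 - s1, hp1, hp2, by ring, ?_⟩
    funext a
    rw [← hcomb a]
    simp only [Pi.add_apply, Pi.smul_apply, Complex.real_smul]
  have h6 := (hext _ ⟨x1, x2, x3, x4, x5, w1⟩ _ ⟨y1, y2, y3, y4, y5, w2⟩ hseg).1
  refine hfin s1 ?_
  apply hdense
  intro a
  have h7 := congrFun h6 a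
  rw [inner_smul_left, Complex.conj_ofReal, ← hφξ, ← h7, mul_inv_cancel_left₀ hc1]

end abs

/-- irreducible representations which vanish on `J` -/
theorem exists_rep' [Nontrivial C] {J : Set C} (hJ : IsId J) (hcl : IsClosed J) :
    ∃ (K : Type u) (_ : NormedAddCommGroup K)
    (_ : InnerProductSpace ℂ K) (_ : CompleteSpace K) (ρ : C →⋆ₙₐ[ℂ] (K →L[ℂ] K)) (ξ : K)
    (φ : C → ℂ), φ ∈ Set.extremePoints ℝ (StJ J) ∧ ρ 1 = 1 ∧ (∀ j ∈ J, ρ j = 0) ∧ ‖ξ‖ = 1 ∧
    (∀ x y : K, (∀ a : C, ⟪x, ρ a ξ⟫_ℂ = ⟪y, ρ a ξ⟫_ℂ) → x = y) ∧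
    (∀ a, φ a = ⟪ξ, ρ a ξ⟫_ℂ) := by
  obtain ⟨φ, hφ⟩ := (StJ_compact J).extremePoints_nonempty (StJ_nonempty hJ hcl)
  obtain ⟨⟨hadd, hsm, hpos, hone, hn, hY⟩, hext⟩ := mem_extremePoints.mp hφ
  let _ := CStarAlgebra.spectralOrder C
  have _ := CStarAlgebra.spectralOrderedRing C
  let f : C →ₚ[ℂ] ℂ := PositiveLinearMap.mk₀
    ({ toFun := φ, map_add' := hadd, map_smul' := fun c a => hsm c a } : C →ₗ[ℂ] ℂ) (by
      intro x hx
      obtain ⟨y, rfl⟩ := CStarAlgebra.nonneg_iff_eq_star_mul_self.1 hx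
      exact hpos y)
  have hf : ∀ x, f x = φ x := fun x => rfl
  let ρ : C →⋆ₙₐ[ℂ] (f.GNS →L[ℂ] f.GNS) := f.gnsNonUnitalStarAlgHom
  let ξ : f.GNS := (f.toPreGNS (1 : C) : f.GNS)
  have hρ : ∀ a b : C, ρ a (f.toPreGNS b : f.GNS) = (f.toPreGNS (a * b) : f.GNS) := by
    intro a b
    show f.gnsNonUnitalStarAlgHom a (f.toPreGNS b : f.GNS) = _
    rw [PositiveLinearMap.gnsNonUnitalStarAlgHom_apply_coe]
    rfl
  have hin : ∀ a b : C, ⟪(f.toPreGNS a : f.GNS), (f.toPreGNS b : f.GNS)⟫_ℂ = φ (star a * b) := by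
    intro a b
    rw [UniformSpace.Completion.inner_coe, PositiveLinearMap.preGNS_inner_def]
    rfl
  have hρξ : ∀ a, ρ a ξ = (f.toPreGNS a : f.GNS) := by
    intro a
    rw [hρ, mul_one]
  have hdense : ∀ x y : f.GNS, (∀ a : C, ⟪x, ρ a ξ⟫_ℂ = ⟪y, ρ a ξ⟫_ℂ) → x = y := by
    intro x y h
    have h2 : ∀ z : f.GNS, ⟪x, z⟫_ℂ = ⟪y, z⟫_ℂ := by
      intro z
      induction z using UniformSpace.Completion.induction_on with
      | hp => exact isClosed_eq (by fun_prop) (by fun_prop)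
      | ih z =>
        have := h (f.ofPreGNS z)
        rw [hρξ] at this
        exact this
    exact ext_inner_right ℂ h2
  have hρ1 : ρ 1 = 1 := by
    ext z
    induction z using UniformSpace.Completion.induction_on with
    | hp => exact isClosed_eq (by fun_prop) (by fun_prop)
    | ih z =>
      have := hρ 1 (f.ofPreGNS z)
      rw [one_mul] at this
      exact this
  have hξ : ‖ξ‖ = 1 := by
    have h2 := hin 1 1
    rw [star_one, one_mul, hone] at h2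
    have h3 : ⟪ξ, ξ⟫_ℂ = 1 := h2
    rw [inner_self_eq_norm_sq_to_K] at h3
    have h4 : ((‖ξ‖ ^ 2 : ℝ) : ℂ) = ((1 : ℝ) : ℂ) := by
      push_cast
      exact h3
    have h5 : ‖ξ‖ ^ 2 = 1 := Complex.ofReal_injective h4
    nlinarith [norm_nonneg ξ]
  have hφξ : ∀ a, φ a = ⟪ξ, ρ a ξ⟫_ℂ := by
    intro a
    rw [hρξ, hin, star_one, one_mul]
  have hρJ : ∀ j ∈ J, ρ j = 0 := by
    intro j hj
    ext z
    induction z using UniformSpace.Completion.induction_on with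
    | hp => exact isClosed_eq (by fun_prop) (by fun_prop)
    | ih z =>
      have h1 := hρ j (f.ofPreGNS z)
      have h2 : ⟪(f.toPreGNS (j * f.ofPreGNS z) : f.GNS), (f.toPreGNS (j * f.ofPreGNS z) : f.GNS)⟫_ℂ
          = 0 := by
        rw [hin]
        apply hY
        exact hJ.left _ _ (hJ.right _ _ hj)
      rw [inner_self_eq_zero] at h2
      rw [h2] at h1
      rw [zero_apply]
      exact h1
  exact ⟨f.GNS, inferInstance, inferInstance, inferInstance, ρ, ξ, φ, hφ, hρ1, hρJ, hξ, hdense,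
    hφξ⟩

/-- irreducible representations which vanish on `J`: the form which is used -/
theorem exists_irr' [Nontrivial C] {J : Set C} (hJ : IsId J) (hcl : IsClosed J) :
    ∃ (K : Type u) (_ : NormedAddCommGroup K)
    (_ : InnerProductSpace ℂ K) (_ : CompleteSpace K) (ρ : C →⋆ₙₐ[ℂ] (K →L[ℂ] K)),
    ρ 1 = 1 ∧ (∀ j ∈ J, ρ j = 0) ∧ (∃ ξ : K, ‖ξ‖ = 1) ∧
    ∀ U : Submodule ℂ K, IsClosed (U : Set K) → (∀ b, ∀ x ∈ U, ρ b x ∈ U) → U = ⊥ ∨ U = ⊤ := by
  obtain ⟨K, _, _, _, ρ, ξ, φ, hφ, hρ1, hρJ, hξ, hdense, hφξ⟩ := exists_rep' hJ hcl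
  refine ⟨K, inferInstance, inferInstance, inferInstance, ρ, hρ1, hρJ, ⟨ξ, hξ⟩, ?_⟩
  intro U hU hinv
  have : CompleteSpace U := hU.completeSpace_coe
  have hperp : ∀ b, ∀ x ∈ Uᗮ, ρ b x ∈ Uᗮ := by
    intro b x hx
    rw [Submodule.mem_orthogonal] at hx ⊢
    intro u hu
    have h1 := hx _ (hinv (star b) u hu)
    rw [map_star, ContinuousLinearMap.star_eq_adjoint, ContinuousLinearMap.adjoint_inner_left] at h1
    exact h1
  let T : K →L[ℂ] K := U.starProjection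
  have hTa : ∀ a x, T (ρ a x) = ρ a (T x) := by
    intro a x
    have h1 : x = T x + (x - T x) := by abel
    have h2 : T x ∈ U := Submodule.starProjection_apply_mem U x
    have h3 : x - T x ∈ Uᗮ := Submodule.sub_starProjection_mem_orthogonal x
    have h4 : T (ρ a (T x)) = ρ a (T x) := Submodule.starProjection_eq_self_iff.2 (hinv a _ h2)
    have h5 : T (ρ a (x - T x)) = 0 :=
      (Submodule.starProjection_apply_eq_zero_iff (K := U)).2 (hperp a _ h3)
    calc T (ρ a x) = T (ρ a (T x + (x - T x))) := by rw [← h1]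
      _ = _ := by rw [map_add, map_add, h4, h5, add_zero]
  have hsplit : ∀ x, ⟪T x, x⟫_ℂ = ⟪T x, T x⟫_ℂ := by
    intro x
    have h3 : x - T x ∈ Uᗮ := Submodule.sub_starProjection_mem_orthogonal x
    rw [Submodule.mem_orthogonal] at h3
    have h4 := h3 (T x) (Submodule.starProjection_apply_mem U x)
    rw [inner_sub_right, sub_eq_zero] at h4
    exact h4
  have hT0 : ∀ x, 0 ≤ ⟪T x, x⟫_ℂ := by
    intro x
    rw [hsplit, inner_self_eq_norm_sq_to_K]
    have : (0 : ℂ) ≤ ((‖T x‖ ^ 2 : ℝ) : ℂ) := Complex.zero_le_real.2 (by positivity)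
    push_cast at this
    exact this
  have hT1 : ∀ x, 0 ≤ ⟪x - T x, x⟫_ℂ := by
    intro x
    have h3 : x - T x ∈ Uᗮ := Submodule.sub_starProjection_mem_orthogonal x
    rw [Submodule.mem_orthogonal'] at h3
    have h4 := h3 (T x) (Submodule.starProjection_apply_mem U x)
    have h5 : ⟪x - T x, x⟫_ℂ = ⟪x - T x, x - T x⟫_ℂ := by
      rw [inner_sub_right (x - T x), h4, sub_zero]
    rw [h5, inner_self_eq_norm_sq_to_K]
    have : (0 : ℂ) ≤ ((‖x - T x‖ ^ 2 : ℝ) : ℂ) := Complex.zero_le_real.2 (by positivity)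
    push_cast at this
    exact this
  obtain ⟨t, ht⟩ := scalar_pos' ρ ξ hφ hρ1 hρJ hξ hdense hφξ T hTa hT0 hT1
  by_cases h0 : t = 0
  · left
    rw [eq_bot_iff]
    intro x hx
    have h1 : T x = x := Submodule.starProjection_eq_self_iff.2 hx
    rw [ht, h0, zero_smul, zero_apply] at h1
    exact h1.symm
  · right
    rw [eq_top_iff]
    intro x _
    have h1 : T x ∈ U := Submodule.starProjection_apply_mem U x
    have h2 : T x = t • x := by rw [ht]; rfl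
    rw [h2] at h1
    have h3 := U.smul_mem t⁻¹ h1
    rwa [smul_smul, inv_mul_cancel₀ h0, one_smul] at h3

end Pool.Agent.K9h98.TI
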