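import Pool.Agent.K9h98.TI.Irr

/-!
# C*-algebras with two approximate isometries with orthogonal ranges are not of type I
-/

set_option autoImplicit false

open scoped ComplexOrder InnerProductSpace

noncomputable section

namespace Pool.Agent.K9h98.TI

universe u

section fd

variable {K : Type u} [NormedAddCommGroup K] [InnerProductSpace ℂ K] [CompleteSpace K]

lemma lower_bound (X : K →L[ℂ] K) (hX : ‖star X * X - 1‖ ≤ 1 / 4) (v : K) :
    3 / 4 * ‖v‖ ^ 2 ≤ ‖X v‖ ^ 2 := by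
  have h1 : ⟪(star X * X - 1) v, v⟫_ℂ = ⟪X v, X v⟫_ℂ - ⟪v, v⟫_ℂ := by
    rw [sub_apply, inner_sub_left, mul_apply_eq_comp, ContinuousLinearMap.star_eq_adjoint,
      ContinuousLinearMap.adjoint_inner_left, one_apply_eq_self]
  have h2 : ‖⟪(star X * X - 1) v, v⟫_ℂ‖ ≤ 1 / 4 * ‖v‖ ^ 2 := by
    refine (norm_inner_le_norm _ _).trans ?_
    have := ((star X * X - 1).le_opNorm v).trans (mul_le_mul_of_nonneg_right hX (norm_nonneg v))
    calc ‖(star X * X - 1) v‖ * ‖v‖ ≤ (1 / 4 * ‖v‖) * ‖v‖ := by gcongr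
      _ = _ := by ring
  rw [h1, inner_self_eq_norm_sq_to_K, inner_self_eq_norm_sq_to_K] at h2
  have h3 : ((‖X v‖ : ℂ)) ^ 2 - ((‖v‖ : ℂ)) ^ 2 = ((‖X v‖ ^ 2 - ‖v‖ ^ 2 : ℝ) : ℂ) := by push_cast; rfl
  have h4 : ‖((‖X v‖ ^ 2 - ‖v‖ ^ 2 : ℝ) : ℂ)‖ ≤ 1 / 4 * ‖v‖ ^ 2 := by
    rw [← h3]
    exact h2
  rw [Complex.norm_real, Real.norm_eq_abs] at h4
  have := (abs_le.1 h4).1
  linarith

/-- in finite dimension there are no such approximate isometries -/
lemma no_fd [FiniteDimensional ℂ K] (X Y : K →L[ℂ] K) (hX : ‖star X * X - 1‖ ≤ 1 / 4)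
    (hY : ‖star Y * Y - 1‖ ≤ 1 / 4) (hXY : ‖star X * Y‖ ≤ 1 / 4) (ξ : K) (hξ : ‖ξ‖ = 1) : False := by
  have hinj : Function.Injective (X : K →ₗ[ℂ] K) := by
    rw [injective_iff_map_eq_zero]
    intro v hv
    have h1 := lower_bound X hX v
    have h2 : X v = 0 := hv
    rw [h2, norm_zero] at h1
    have h3 : ‖v‖ ^ 2 ≤ 0 := by linarith
    have h4 : ‖v‖ = 0 := by
      have := sq_nonneg ‖v‖
      exact pow_eq_zero_iff (two_ne_zero) |>.1 (le_antisymm h3 this)
    exact norm_eq_zero.1 h4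
  obtain ⟨v, hv⟩ := LinearMap.injective_iff_surjective.1 hinj (Y ξ)
  have hv' : X v = Y ξ := hv
  have h1 := lower_bound X hX v
  have h2 := lower_bound Y hY ξ
  rw [hξ] at h2
  have h3 : ⟪X v, Y ξ⟫_ℂ = ⟪v, (star X * Y) ξ⟫_ℂ := by
    rw [mul_apply_eq_comp, ContinuousLinearMap.star_eq_adjoint,
      ContinuousLinearMap.adjoint_inner_right]
  have h4 : ‖⟪v, (star X * Y) ξ⟫_ℂ‖ ≤ ‖v‖ * (1 / 4) := by
    refine (norm_inner_le_norm _ _).trans ?_
    have := ((star X * Y).le_opNorm ξ).trans (mul_le_mul_of_nonneg_right hXY (norm_nonneg ξ))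
    rw [hξ, mul_one] at this
    gcongr
  rw [← h3, hv', inner_self_eq_norm_sq_to_K] at h4
  have h5 : ‖((‖Y ξ‖ : ℂ)) ^ 2‖ = ‖Y ξ‖ ^ 2 := by
    rw [norm_pow, Complex.norm_real, norm_norm]
  have h6 : ‖Y ξ‖ ^ 2 ≤ ‖v‖ * (1 / 4) := by
    rw [← h5]
    exact h4
  rw [hv'] at h1
  have h0 := norm_nonneg v
  nlinarith [norm_nonneg (Y ξ), sq_nonneg ‖Y ξ‖]

end fd

/-- A unital C*-algebra which contains two approximate isometries with almost orthogonal ranges
has an irreducible representation whose image does not contain all compact operators. -/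
theorem exists_irr_not_compact {C : Type u} [CStarAlgebra C] [Nontrivial C] (x y : C)
    (hx : ‖star x * x - 1‖ ≤ 1 / 4) (hy : ‖star y * y - 1‖ ≤ 1 / 4) (hxy : ‖star x * y‖ ≤ 1 / 4) :
    ∃ (K : Type u) (_ : NormedAddCommGroup K)
    (_ : InnerProductSpace ℂ K) (_ : CompleteSpace K) (ρ : C →⋆ₙₐ[ℂ] (K →L[ℂ] K)),
    ρ 1 = 1 ∧ (∃ ξ : K, ‖ξ‖ = 1) ∧
    (∀ U : Submodule ℂ K, IsClosed (U : Set K) → (∀ b, ∀ x ∈ U, ρ b x ∈ U) → U = ⊥ ∨ U = ⊤) ∧
    ∃ T : K →L[ℂ] K, IsCompactOperator T ∧ ∀ c, ρ c ≠ T := by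
  obtain ⟨J, hJ, hcl, hmax⟩ := exists_max (C := C)
  obtain ⟨K, _, _, _, ρ, hρ1, hρJ, ⟨ξ, hξ⟩, hirr⟩ := exists_irr' hJ hcl
  refine ⟨K, inferInstance, inferInstance, inferInstance, ρ, hρ1, ⟨ξ, hξ⟩, hirr, ?_⟩
  by_contra hcon
  push Not at hcon
  -- the ideal of the elements which are mapped to compact operators
  set J' : Set C := {a | IsCompactOperator (ρ a) ∧ IsCompactOperator (ρ (star a))} with hJ'
  have hcomp : ∀ S T : K →L[ℂ] K, IsCompactOperator T → IsCompactOperator (S * T : K →L[ℂ] K) :=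
    fun S T hT => hT.clm_comp S
  have hcomp2 : ∀ S T : K →L[ℂ] K, IsCompactOperator T → IsCompactOperator (T * S : K →L[ℂ] K) :=
    fun S T hT => hT.comp_clm S
  have hone : (1 : C) ∈ J' := by
    by_contra h1
    have hid : IsId J' := by
      refine ⟨?_, ?_, ?_, ?_, ?_, h1⟩
      · refine ⟨?_, ?_⟩
        · rw [map_zero]; exact isCompactOperator_zero
        · rw [star_zero, map_zero]; exact isCompactOperator_zero
      · rintro a ⟨ha, ha'⟩ b ⟨hb, hb'⟩
        refine ⟨?_, ?_⟩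
        · rw [map_add]; exact ha.add hb
        · rw [star_add, map_add]; exact ha'.add hb'
      · rintro c a ⟨ha, ha'⟩
        refine ⟨?_, ?_⟩
        · rw [map_mul]; exact hcomp _ _ ha
        · rw [star_mul, map_mul]; exact hcomp2 _ _ ha'
      · rintro c a ⟨ha, ha'⟩
        refine ⟨?_, ?_⟩
        · rw [map_mul]; exact hcomp2 _ _ ha
        · rw [star_mul, map_mul]; exact hcomp _ _ ha'
      · rintro a ⟨ha, ha'⟩
        refine ⟨ha', ?_⟩
        rw [star_star]
        exact ha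
    have hsub : J ⊆ J' := by
      intro j hj
      refine ⟨?_, ?_⟩
      · rw [hρJ j hj]; exact isCompactOperator_zero
      · rw [hρJ _ (hJ.star j hj)]; exact isCompactOperator_zero
    have heq := hmax J' hid hsub
    -- a rank one operator
    set T : K →L[ℂ] K := InnerProductSpace.rankOne ℂ ξ ξ with hT
    have hTc : IsCompactOperator T :=
      (isCompactOperator_of_locallyCompactSpace_dom (innerSL ℂ ξ)).clm_comp
        (ContinuousLinearMap.toSpanSingleton ℂ ξ)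
    have hTs : star T = T := by
      rw [ContinuousLinearMap.star_eq_adjoint, hT, InnerProductSpace.adjoint_rankOne]
    obtain ⟨b, hb⟩ := hcon T hTc
    have hbJ : b ∈ J' := by
      refine ⟨?_, ?_⟩
      · rw [hb]; exact hTc
      · rw [map_star, hb, hTs]; exact hTc
    rw [heq] at hbJ
    have h0 := hρJ b hbJ
    rw [hb] at h0
    have h2 : T ξ = ξ := by
      rw [hT, InnerProductSpace.rankOne_apply, inner_self_eq_norm_sq_to_K, hξ]
      simp
    rw [h0, zero_apply] at h2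
    rw [← h2, norm_zero] at hξ
    exact zero_ne_one hξ
  have hfd : FiniteDimensional ℂ K := by
    have h1 := hone.1
    rw [hρ1] at h1
    have h2 : IsCompactOperator (id : K → K) := h1
    have : LocallyCompactSpace K := LocallyCompactSpace.of_isCompactOperator_id h2
    exact FiniteDimensional.of_locallyCompactSpace ℂ
  have hn : ∀ c : C, ‖ρ c‖ ≤ ‖c‖ := fun c => NonUnitalStarAlgHom.norm_apply_le ρ c
  refine no_fd (ρ x) (ρ y) ?_ ?_ ?_ ξ hξ
  · have := (hn (star x * x - 1)).trans hx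
    rwa [map_sub, map_mul, map_star, hρ1] at this
  · have := (hn (star y * y - 1)).trans hy
    rwa [map_sub, map_mul, map_star, hρ1] at this
  · have := (hn (star x * y)).trans hxy
    rwa [map_mul, map_star] at this

end Pool.Agent.K9h98.TI
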